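import Mathlib
import Pool.Agent.H33.FinUnb2

set_option autoImplicit false

open Set Cardinal Pool.Agent.H33.FinUnb

namespace Pool.Agent.Results.MP_27b523_gt.CardCases

theorem result (κ : Cardinal.{0}) (hκ : κ.IsRegular) (X : Set C) (hX : FinUnbInt κ X)
    (Y : Type) [TopologicalSpace Y] [T1Space Y] (hY : GammaProp Y)
    (h : min κ dom ≤ max (ℵ_ 1) (max covM gw)) :
    S1GammaOmega ((X ∪ FinSets : Set C) × Y) := by
  rw [min_eq_left (le_dom hκ hX), le_max_iff, le_max_iff] at h
  exact card_case hY hκ hX h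

end Pool.Agent.Results.MP_27b523_gt.CardCases
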