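import Mathlib
import Pool.Agent.H33.FinUnb2

set_option autoImplicit false

open Set Cardinal Pool.Agent.H33.FinUnb

namespace Pool.Agent.Results.MP_27b523_gt.SmallReduction

theorem result (κ : Cardinal.{0}) (hκ : κ.IsRegular) (X : Set C) (hX : FinUnbInt κ X)
    (Y : Type) [TopologicalSpace Y] [T1Space Y] (hY : GammaProp Y)
    (h : ∀ S ⊆ X, #S < κ → S1GammaOmega ((S ∪ FinSets : Set C) × Y)) :
    S1GammaOmega ((X ∪ FinSets : Set C) × Y) :=
  red' hY hκ hX h

end Pool.Agent.Results.MP_27b523_gt.SmallReduction
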